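import Pool.Agent.H46.NF.L

/-!
# NF, rows L2M, L2D: the classes with `Loc2`
-/

set_option autoImplicit false

namespace Pool.NF

open Polynomial Matrix NumberField IsDedekindDomain Pool.HYP Pool.TOW Pool.AVS Pool.T1

/-- **L2M.** -/
theorem l2m (irl : IRL2Stmt) (mul : MULStmt) : L2MStmt := by
  intro K _ _ D Y hD f hf α β hα hβ L _ O ι hL h2
  obtain ⟨hm, hd, -, -, -⟩ := id hf
  rw [Polynomial.map_mul]
  refine mul L _ _ _ ((hm.map _).map _) ?_ (irl K L O ι hL h2 D Y hD f hf) (hα L O ι hL h2)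
    (hβ L O ι hL h2)
  rw [(hm.map _).natDegree_map, hm.natDegree_map, hd]

theorem gr_map80 {K L : Type} [Field K] [Field L] (ι : K →+* L) (k n : ℕ) {f : K[X]}
    (hf : f.Monic) (h : K[X]) :
    HYP.gr k n (f.map ι) (h.map ι) = (HYP.gr k n f h).map ι := by
  ext i j
  simp only [HYP.gr, Matrix.of_apply, Matrix.map_apply]
  unfold HYP.tau
  rw [← Polynomial.map_X ι, ← Polynomial.map_pow, ← Polynomial.map_mul, ← map_modByMonic ι hf,
    coeff_map, hf.natDegree_map ι]

/-- **L2D.** -/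
theorem l2d (irl : IRL2Stmt) (iso : ISOStmt) : L2DStmt := by
  intro K _ _ D Y hD f hf α hα L _ O ι hL h2
  obtain ⟨hm, hd, -, -, -⟩ := id hf
  have h := iso L ((fk K f).map ι) (α.map ι) ((hm.map _).map _)
    (by rw [(hm.map _).natDegree_map, hm.natDegree_map, hd])
    (irl K L O ι hL h2 D Y hD f hf) (hα L O ι hL h2)
  rw [gr_map80 ι 0 3 (hm.map _)] at h
  exact h

end Pool.NF
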