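import Pool.Agent.H46.NF.L
import Pool.Agent.H33.HYP.TWS

/-!
# NF, rows SQD, LS2, L2T: the twist at the dyadic completions
-/

set_option autoImplicit false

namespace Pool.NF

open Polynomial Matrix NumberField IsDedekindDomain Pool.HYP Pool.TOW Pool.AVS Pool.T1

open Pool.HYP.H33 in
/-- **LS2.** -/
theorem ls2 : LS2Stmt := by
  intro R _ K _ _ L _ ι d f α z hf hz hzd h
  obtain ⟨u, w, s, hu, hcop, hdvd, hk⟩ := h
  obtain ⟨δ, hδ⟩ : ∃ δ : L, δ = ι (algebraMap R K d) := ⟨_, rfl⟩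
  have hδz : δ = z ^ 2 := by rw [hδ, hzd]
  have hδ0 : δ ≠ 0 := by rw [hδz]; exact pow_ne_zero _ hz
  obtain ⟨F, hF⟩ : ∃ F : L[X], F = (fk K f).map ι := ⟨_, rfl⟩
  have hfK : (fk K (f.scaleRoots d)).map ι = F.scaleRoots δ := by
    rw [hF, hδ]
    have e1 : fk K (f.scaleRoots d) = (fk K f).scaleRoots (algebraMap R K d) := by
      refine map_scaleRoots f d _ ?_
      rw [hf.leadingCoeff, map_one]
      exact one_ne_zero
    rw [e1]
    refine map_scaleRoots _ _ _ ?_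
    rw [(hf.map (algebraMap R K)).leadingCoeff, map_one]
    exact one_ne_zero
  rw [hfK] at hcop hdvd
  rw [← hδ, ← hF] at hk
  rw [← hF]
  obtain ⟨N, hN⟩ : ∃ N, N = u.natDegree := ⟨_, rfl⟩
  obtain ⟨n, hn⟩ : ∃ n, n = F.natDegree := ⟨_, rfl⟩
  have hdeg : (u.comp (C δ * X)).natDegree = N := by
    rw [natDegree_comp, natDegree_C_mul_X _ hδ0, mul_one, hN]
  have hlead : (u.comp (C δ * X)).leadingCoeff = δ ^ N := by
    rw [leadingCoeff_comp (by rw [natDegree_C_mul_X _ hδ0]; exact one_ne_zero),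
      hu.leadingCoeff, leadingCoeff_C_mul_X, one_mul, hN]
  have hzN : z ^ N ≠ 0 := pow_ne_zero _ hz
  have hzn : z ^ n ≠ 0 := pow_ne_zero _ hz
  have hδN : δ ^ N = z ^ N * z ^ N := by rw [hδz]; ring
  have hδn : δ ^ n = z ^ n * z ^ n := by rw [hδz]; ring
  have hcN : (C (z ^ N)⁻¹ : L[X]) * C (z ^ N) = 1 := by
    rw [← C_mul, inv_mul_cancel₀ hzN, C_1]
  have hcn : (C (z ^ n)⁻¹ : L[X]) * C (z ^ n) = 1 := by
    rw [← C_mul, inv_mul_cancel₀ hzn, C_1]
  obtain ⟨v, hv⟩ : ∃ v : L[X], v = C (z ^ N)⁻¹ * C (z ^ N)⁻¹ * u.comp (C δ * X) := ⟨_, rfl⟩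
  have huv : u.comp (C δ * X) = C (z ^ N) * C (z ^ N) * v := by
    rw [hv]
    linear_combination (-(u.comp (C δ * X)) * (C (z ^ N)⁻¹ * C (z ^ N) + 1)) * hcN
  have hvd : v.natDegree = N := by
    rw [hv, ← C_mul, natDegree_C_mul (mul_ne_zero (inv_ne_zero hzN) (inv_ne_zero hzN)), hdeg]
  have hvm : v.Monic := by
    unfold Monic
    rw [hv, ← C_mul, leadingCoeff_mul, leadingCoeff_C, hlead, hδN]
    field_simp
  refine ⟨v, C (z ^ n)⁻¹ * w.comp (C δ * X), C (z ^ N)⁻¹ * s, hvm, ?_, ?_, ?_⟩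
  · have h1 := hcop.map (scE δ hδ0).toRingEquiv.toRingHom
    have h2 : IsCoprime (u.comp (C δ * X)) ((F.scaleRoots δ).comp (C δ * X)) := h1
    rw [comp_scale] at h2
    have h3 := h2.of_mul_right_right
    rw [huv] at h3
    exact h3.of_mul_left_right
  · obtain ⟨r, hr⟩ := hdvd
    have h1 : (w.comp (C δ * X)) ^ 2 - C (δ ^ F.natDegree) * F =
        u.comp (C δ * X) * r.comp (C δ * X) := by
      rw [← comp_scale, ← mul_comp, ← hr, sub_comp, pow_comp]
    rw [← hn, hδn, C_mul, huv] at h1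
    refine ⟨C (z ^ n)⁻¹ * C (z ^ n)⁻¹ * (C (z ^ N) * C (z ^ N) * r.comp (C δ * X)), ?_⟩
    linear_combination (C (z ^ n)⁻¹ * C (z ^ n)⁻¹) * h1 +
      (F * (C (z ^ n)⁻¹ * C (z ^ n) + 1)) * hcn
  · obtain ⟨r, hr⟩ := hk
    unfold HYP.kap at hr
    rw [hdeg] at hr
    rw [huv] at hr
    rw [hvd]
    refine ⟨C (z ^ N)⁻¹ * C (z ^ N)⁻¹ * r, ?_⟩
    linear_combination (C (z ^ N)⁻¹ * C (z ^ N)⁻¹) * hr -
      ((-1) ^ N * v * (C (z ^ N)⁻¹ * C (z ^ N) + 1)) * hcN

/-- **SQD.** -/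
theorem sqd : SQDStmt := by
  intro K _ _ L _ O ι hL h2 e
  have hO2 : (2 : L) ≠ 0 := by
    intro h
    rw [h, _root_.inv_zero] at h2
    exact h2 O.zero_mem
  have hloc : (2 : O) ∈ IsLocalRing.maximalIdeal O := by
    rw [IsLocalRing.mem_maximalIdeal, mem_nonunits_iff]
    intro hu
    apply h2
    obtain ⟨v, hv⟩ := hu.exists_right_inv
    have h3 : (2 : L) * (v : L) = 1 := by
      have := congrArg (fun x : O => (x : L)) hv
      exact this
    have h4 : (2 : L)⁻¹ = v := (eq_inv_of_mul_eq_one_right h3).symm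
    rw [h4]
    exact v.2
  -- integrality
  have hint : IsIntegral O (ι (algebraMap (𝓞 K) K e)) := by
    have h1 : IsIntegral ℤ (algebraMap (𝓞 K) K e) := e.2
    have h3 : IsIntegral ℤ (ι (algebraMap (𝓞 K) K e)) := h1.map (ι.toIntAlgHom)
    exact h3.tower_top
  obtain ⟨e', he'⟩ := IsIntegrallyClosed.isIntegral_iff.mp hint
  have hc := hL.complete
  have hens : HenselianRing O (IsLocalRing.maximalIdeal O) := inferInstance
  have hP : (X ^ 2 + X - C (2 * e') : O[X]).Monic := by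
    have : (X ^ 2 + X - C (2 * e') : O[X]) = X ^ 2 + (X - C (2 * e')) := by ring
    rw [this]
    refine monic_X_pow_add ?_
    rw [degree_X_sub_C]
    norm_num
  obtain ⟨a, ha, -⟩ := hens.is_henselian (X ^ 2 + X - C (2 * e')) hP 0
    (by
      simp only [eval_sub, eval_add, eval_pow, eval_X, eval_C]
      have : (0 : O) ^ 2 + 0 - 2 * e' = 2 * (- e') := by ring
      rw [this]
      exact Ideal.mul_mem_right _ _ hloc)
    (by
      simp only [derivative_sub, derivative_add, derivative_X_pow, derivative_X, derivative_C,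
        eval_sub, eval_add, eval_mul, eval_pow, eval_X, eval_C, eval_one, eval_zero]
      simp)
  have ha' : a ^ 2 + a = 2 * e' := by
    have : (X ^ 2 + X - C (2 * e') : O[X]).eval a = 0 := ha
    simp only [eval_sub, eval_add, eval_pow, eval_X, eval_C] at this
    exact sub_eq_zero.mp this
  have ha2 : ((a : L)) ^ 2 + a = 2 * ι (algebraMap (𝓞 K) K e) := by
    rw [← he']
    have := congrArg (fun x : O => (x : L)) ha'
    exact this
  refine ⟨1 + 2 * a, ?_, ?_⟩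
  · intro h
    apply h2
    have h3 : (2 : L) * (-(a : L)) = 1 := by linear_combination -h
    have h4 : (2 : L)⁻¹ = -(a : L) := (eq_inv_of_mul_eq_one_right h3).symm
    rw [h4]
    exact O.neg_mem _ a.2
  · simp only [map_add, map_one, map_mul, map_ofNat]
    linear_combination 4 * ha2

/-- **L2T.** -/
theorem l2t : L2TStmt := by
  intro K _ _ f d e α hf hd h L _ O ι hL h2
  obtain ⟨z, hz, hz2⟩ := sqd K L O ι hL h2 e
  refine ls2 (𝓞 K) K L ι d f α z hf hz ?_ (h L O ι hL)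
  rw [hd, hz2]

end Pool.NF
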